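import Pool.Agent.Helper144.Sph.Enc

/-!
The orthogonality graph on the unit sphere, and how to bound its chromatic number from below by
a finite set of integer vectors.
-/

set_option autoImplicit false

namespace Pool.Agent.Helper144.Sph

open Pool.Agent.Helper144.Rup

/-- The graph on the unit sphere of `ℝ^d` in which two points are adjacent if and only if they are
at distance exactly `√2`. -/
def orthGraph (d : ℕ) : SimpleGraph (Metric.sphere (0 : EuclideanSpace ℝ (Fin d)) 1) where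
  Adj x y := dist x y = √2
  symm := ⟨fun x y h => by rw [dist_comm]; exact h⟩
  loopless := ⟨fun x h => by
    rw [dist_self] at h
    have : (0 : ℝ) < √2 := Real.sqrt_pos.2 two_pos
    linarith⟩

theorem adj_iff {d : ℕ} (x y : Metric.sphere (0 : EuclideanSpace ℝ (Fin d)) 1) :
    (orthGraph d).Adj x y ↔ inner ℝ (x : EuclideanSpace ℝ (Fin d)) y = 0 := by
  have hx : ‖(x : EuclideanSpace ℝ (Fin d))‖ = 1 := norm_eq_of_mem_sphere x
  have hy : ‖(y : EuclideanSpace ℝ (Fin d))‖ = 1 := norm_eq_of_mem_sphere y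
  change dist (x : EuclideanSpace ℝ (Fin d)) y = √2 ↔ _
  rw [dist_eq_norm]
  have h := norm_sub_sq_real (x : EuclideanSpace ℝ (Fin d)) y
  rw [hx, hy] at h
  have h0 := norm_nonneg ((x : EuclideanSpace ℝ (Fin d)) - y)
  constructor
  · intro h1
    rw [h1, Real.sq_sqrt two_pos.le] at h
    linarith
  · intro h1
    rw [h1] at h
    rw [← Real.sqrt_sq h0, h]
    norm_num

/-- The unit vector in the direction of `w`. -/
noncomputable def uv {d : ℕ} (w : EuclideanSpace ℝ (Fin d)) (hw : w ≠ 0) :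
    Metric.sphere (0 : EuclideanSpace ℝ (Fin d)) 1 :=
  ⟨‖w‖⁻¹ • w, by
    rw [mem_sphere_zero_iff_norm, norm_smul, norm_inv, norm_norm]
    exact inv_mul_cancel₀ (norm_ne_zero_iff.2 hw)⟩

theorem adj_uv {d : ℕ} {w w' : EuclideanSpace ℝ (Fin d)} (hw : w ≠ 0) (hw' : w' ≠ 0)
    (h : inner ℝ w w' = 0) : (orthGraph d).Adj (uv w hw) (uv w' hw') := by
  rw [adj_iff]
  change inner ℝ (‖w‖⁻¹ • w) (‖w'‖⁻¹ • w') = 0
  rw [real_inner_smul_left, real_inner_smul_right, h]
  simp

/-- An integer vector as a real vector. -/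
noncomputable def toE (v : ℤ × ℤ × ℤ × ℤ) : EuclideanSpace ℝ (Fin 4) :=
  !₂[(v.1 : ℝ), (v.2.1 : ℝ), (v.2.2.1 : ℝ), (v.2.2.2 : ℝ)]

theorem inner_toE (v w : ℤ × ℤ × ℤ × ℤ) : inner ℝ (toE v) (toE w) = ((dot v w : ℤ) : ℝ) := by
  simp only [toE, dot, PiLp.inner_apply, Fin.sum_univ_four]
  simp
  ring

theorem toE_ne {v : ℤ × ℤ × ℤ × ℤ} (h : v ≠ (0, 0, 0, 0)) : toE v ≠ 0 := by
  intro h0
  apply h
  have h1 := congrArg (fun u : EuclideanSpace ℝ (Fin 4) => u 0) h0
  have h2 := congrArg (fun u : EuclideanSpace ℝ (Fin 4) => u 1) h0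
  have h3 := congrArg (fun u : EuclideanSpace ℝ (Fin 4) => u 2) h0
  have h4 := congrArg (fun u : EuclideanSpace ℝ (Fin 4) => u 3) h0
  simp [toE] at h1 h2 h3 h4
  exact Prod.ext h1 (Prod.ext h2 (Prod.ext h3 h4))

def eb (t : Fin 4) : ℤ × ℤ × ℤ × ℤ :=
  (if t.val = 0 then 1 else 0, if t.val = 1 then 1 else 0, if t.val = 2 then 1 else 0,
    if t.val = 3 then 1 else 0)

theorem eb_ne (t : Fin 4) : eb t ≠ (0, 0, 0, 0) := by
  fin_cases t <;> decide

theorem dot_eb {s t : Fin 4} (h : s ≠ t) : dot (eb s) (eb t) = 0 := by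
  revert h; revert s t; decide

/-- The criterion: a refuted list of clauses gives a lower bound. -/
theorem not_colorable {k : ℕ} (hk : 4 ≤ k) {vs : List (ℤ × ℤ × ℤ × ℤ)} {edges basis : List (ℕ × ℕ)}
    {steps : List ℕ} {N n : ℕ} (hn : vs.length = n)
    (h_ok : build (cnf k n edges basis) Tr.nil 0 (fun t => run steps t N) = true)
    (h_edges : edgesOk vs edges = true) (h_basis : basisOk vs basis = true)
    (h_nz : nzOk vs = true) : ¬ (orthGraph 4).Colorable k := by
  classical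
  rintro ⟨C⟩
  -- normalise the colours of the standard basis
  let g : Fin 4 → Fin k := fun t => C (uv (toE (eb t)) (toE_ne (eb_ne t)))
  have hg : Function.Injective g := by
    intro s t hst
    by_contra hne
    have hadj : (orthGraph 4).Adj (uv (toE (eb s)) (toE_ne (eb_ne s)))
        (uv (toE (eb t)) (toE_ne (eb_ne t))) := by
      apply adj_uv
      rw [inner_toE, dot_eb hne]
      simp
    exact C.valid hadj hst
  obtain ⟨σ, hσ⟩ : ∃ σ : Equiv.Perm (Fin k), ∀ t, σ (g t) = Fin.castLE hk t := by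
    let e1 : Set.range g ≃ Set.range (Fin.castLE hk) :=
      (Equiv.ofInjective g hg).symm.trans (Equiv.ofInjective _ (Fin.castLE_injective hk))
    refine ⟨e1.extendSubtype, fun t => ?_⟩
    rw [Equiv.extendSubtype_apply_of_mem e1 (g t) ⟨t, rfl⟩]
    simp [e1]
  let f : ℕ → ℕ := fun i =>
    if h : ray vs i ≠ (0, 0, 0, 0) then (σ (C (uv (toE (ray vs i)) (toE_ne h)))).val else 0
  have hnz : ∀ i < vs.length, ray vs i ≠ (0, 0, 0, 0) := by
    intro i hi
    have h1 := List.all_eq_true.1 h_nz (ray vs i) (by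
      unfold ray
      rw [List.getD_eq_getElem _ _ hi]
      exact List.getElem_mem hi)
    exact of_decide_eq_true h1
  have hf : ∀ i < n, f i < k := by
    intro i hi
    simp only [f]
    rw [dif_pos (hnz i (hn ▸ hi))]
    exact Fin.isLt _
  have he : ∀ e ∈ edges, f e.1 ≠ f e.2 := by
    intro e hee
    have h1 := List.all_eq_true.1 h_edges e hee
    simp only [Bool.and_eq_true, decide_eq_true_eq] at h1
    obtain ⟨⟨h1, h2⟩, h3⟩ := h1
    simp only [f]
    rw [dif_pos (hnz _ h1), dif_pos (hnz _ h2)]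
    intro h4
    have h5 := σ.injective (Fin.ext h4)
    refine C.valid ?_ h5
    apply adj_uv
    rw [inner_toE, h3]
    simp
  have hb : ∀ b ∈ basis, b.2 < k ∧ f b.1 = b.2 := by
    intro b hbb
    have h1 := List.all_eq_true.1 h_basis b hbb
    simp only [Bool.and_eq_true, decide_eq_true_eq] at h1
    obtain ⟨⟨h1, h2⟩, h3⟩ := h1
    refine ⟨by omega, ?_⟩
    have h4 : ray vs b.1 = eb ⟨b.2, h2⟩ := h3
    have key : ∀ (v : ℤ × ℤ × ℤ × ℤ) (hv : v ≠ (0, 0, 0, 0)), v = eb ⟨b.2, h2⟩ →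
        σ (C (uv (toE v) (toE_ne hv))) = Fin.castLE hk ⟨b.2, h2⟩ := by
      intro v hv h
      subst h
      exact hσ _
    simp only [f]
    rw [dif_pos (hnz _ h1), key _ (hnz _ h1) h4]
    rfl
  exact refute h_ok _ (sat_cnf f hf he hb)

/-! ### Induction on the dimension -/

/-- `ℝ^d` as the hyperplane `x 0 = 0` of `ℝ^(d+1)`. -/
noncomputable def emb {d : ℕ} (x : EuclideanSpace ℝ (Fin d)) : EuclideanSpace ℝ (Fin (d + 1)) :=
  WithLp.toLp 2 (Fin.cons (0 : ℝ) (fun i => x i))

theorem inner_emb {d : ℕ} (x y : EuclideanSpace ℝ (Fin d)) :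
    inner ℝ (emb x) (emb y) = inner ℝ x y := by
  simp only [emb, PiLp.inner_apply, Fin.sum_univ_succ]
  simp

/-- The pole. -/
noncomputable def pole (d : ℕ) : EuclideanSpace ℝ (Fin (d + 1)) := EuclideanSpace.single 0 1

theorem inner_pole {d : ℕ} (x : EuclideanSpace ℝ (Fin d)) : inner ℝ (emb x) (pole d) = 0 := by
  rw [pole, EuclideanSpace.inner_single_right]
  simp [emb]

noncomputable def embS {d : ℕ} (x : Metric.sphere (0 : EuclideanSpace ℝ (Fin d)) 1) :
    Metric.sphere (0 : EuclideanSpace ℝ (Fin (d + 1))) 1 :=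
  ⟨emb x, by
    rw [mem_sphere_zero_iff_norm]
    have h : ‖(x : EuclideanSpace ℝ (Fin d))‖ = 1 := norm_eq_of_mem_sphere x
    have h2 : ‖emb (x : EuclideanSpace ℝ (Fin d))‖ ^ 2 = 1 := by
      rw [← real_inner_self_eq_norm_sq, inner_emb, real_inner_self_eq_norm_sq, h]
      norm_num
    have h3 := norm_nonneg (emb (x : EuclideanSpace ℝ (Fin d)))
    nlinarith⟩

noncomputable def poleS (d : ℕ) : Metric.sphere (0 : EuclideanSpace ℝ (Fin (d + 1))) 1 :=
  ⟨pole d, by
    rw [mem_sphere_zero_iff_norm]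
    simp [pole]⟩

/-- One more dimension needs one more colour. -/
theorem colorable_pred {d n : ℕ} (h : (orthGraph (d + 1)).Colorable n) :
    1 ≤ n ∧ (orthGraph d).Colorable (n - 1) := by
  classical
  obtain ⟨C⟩ := h
  have hn : 1 ≤ n := by
    have := (C (poleS d)).isLt
    omega
  refine ⟨hn, ?_⟩
  have hne : ∀ x : Metric.sphere (0 : EuclideanSpace ℝ (Fin d)) 1,
      C (embS x) ≠ C (poleS d) := fun x =>
    C.valid ((adj_iff _ _).2 (inner_pole (x : EuclideanSpace ℝ (Fin d))))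
  let C' : (orthGraph d).Coloring {c : Fin n // c ≠ C (poleS d)} :=
    SimpleGraph.Coloring.mk (fun x => ⟨C (embS x), hne x⟩) (by
      intro x y hxy h
      refine C.valid ?_ (congrArg Subtype.val h)
      rw [adj_iff] at hxy ⊢
      change inner ℝ (emb (x : EuclideanSpace ℝ (Fin d))) (emb (y : EuclideanSpace ℝ (Fin d))) = 0
      rw [inner_emb, hxy])
  have h := C'.colorable
  have hc : Fintype.card {c : Fin n // c ≠ C (poleS d)} = n - 1 := by
    rw [Fintype.card_subtype_compl]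
    simp
  rwa [hc] at h

/-- Lower bounds propagate from dimension 4 to all higher dimensions. -/
theorem lower_of_four {m : ℕ} (h4 : ∀ n, (orthGraph 4).Colorable n → 4 + m ≤ n) (d : ℕ)
    (hd : 4 ≤ d) : ∀ n, (orthGraph d).Colorable n → d + m ≤ n := by
  induction d, hd using Nat.le_induction with
  | base => exact h4
  | succ d hd ih =>
    intro n hn
    obtain ⟨h1, h2⟩ := colorable_pred hn
    have := ih _ h2
    omega

end Pool.Agent.Helper144.Sph
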