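import Pool.Agent.Helper144.Sph.Graph

/-!
Superadditivity of the chromatic number of the orthogonality graph.
-/

set_option autoImplicit false

namespace Pool.Agent.Helper144.Sph

/-- `ℝ^a` as the first summand of `ℝ^(a+b)`. -/
noncomputable def embL {a : ℕ} (b : ℕ) (x : EuclideanSpace ℝ (Fin a)) :
    EuclideanSpace ℝ (Fin (a + b)) :=
  WithLp.toLp 2 (Fin.append (fun i => x i) (fun _ => (0 : ℝ)))

/-- `ℝ^b` as the second summand of `ℝ^(a+b)`. -/
noncomputable def embR (a : ℕ) {b : ℕ} (y : EuclideanSpace ℝ (Fin b)) :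
    EuclideanSpace ℝ (Fin (a + b)) :=
  WithLp.toLp 2 (Fin.append (fun _ => (0 : ℝ)) (fun i => y i))

theorem inner_embL {a b : ℕ} (x y : EuclideanSpace ℝ (Fin a)) :
    inner ℝ (embL b x) (embL b y) = inner ℝ x y := by
  simp only [embL, PiLp.inner_apply, Fin.sum_univ_add]
  simp

theorem inner_embR {a b : ℕ} (x y : EuclideanSpace ℝ (Fin b)) :
    inner ℝ (embR a x) (embR a y) = inner ℝ x y := by
  simp only [embR, PiLp.inner_apply, Fin.sum_univ_add]
  simp

theorem inner_embLR {a b : ℕ} (x : EuclideanSpace ℝ (Fin a)) (y : EuclideanSpace ℝ (Fin b)) :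
    inner ℝ (embL b x) (embR a y) = 0 := by
  simp only [embL, embR, PiLp.inner_apply, Fin.sum_univ_add]
  simp

theorem norm_eq_one_of_inner {d e : ℕ} {x : EuclideanSpace ℝ (Fin d)} {z : EuclideanSpace ℝ (Fin e)}
    (h : inner ℝ z z = inner ℝ x x) (hx : ‖x‖ = 1) : ‖z‖ = 1 := by
  have h2 : ‖z‖ ^ 2 = 1 := by
    rw [← real_inner_self_eq_norm_sq, h, real_inner_self_eq_norm_sq, hx]
    norm_num
  have h3 := norm_nonneg z
  nlinarith

noncomputable def embLS {a : ℕ} (b : ℕ) (x : Metric.sphere (0 : EuclideanSpace ℝ (Fin a)) 1) :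
    Metric.sphere (0 : EuclideanSpace ℝ (Fin (a + b))) 1 :=
  ⟨embL b x, by
    rw [mem_sphere_zero_iff_norm]
    exact norm_eq_one_of_inner (inner_embL (x : EuclideanSpace ℝ (Fin a)) x)
      (norm_eq_of_mem_sphere x)⟩

noncomputable def embRS (a : ℕ) {b : ℕ} (x : Metric.sphere (0 : EuclideanSpace ℝ (Fin b)) 1) :
    Metric.sphere (0 : EuclideanSpace ℝ (Fin (a + b))) 1 :=
  ⟨embR a x, by
    rw [mem_sphere_zero_iff_norm]
    exact norm_eq_one_of_inner (inner_embR (x : EuclideanSpace ℝ (Fin b)) x)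
      (norm_eq_of_mem_sphere x)⟩

/-- The colours used on two orthogonal subspaces are disjoint. -/
theorem colorable_add {a b n : ℕ} (h : (orthGraph (a + b)).Colorable n) :
    ∃ m₁ m₂ : ℕ, m₁ + m₂ ≤ n ∧ (orthGraph a).Colorable m₁ ∧ (orthGraph b).Colorable m₂ := by
  classical
  obtain ⟨C⟩ := h
  let A : Finset (Fin n) := Finset.univ.filter fun c => ∃ x, C (embLS b x) = c
  let B : Finset (Fin n) := Finset.univ.filter fun c => ∃ y, C (embRS a y) = c
  have hdisj : Disjoint A B := by
    rw [Finset.disjoint_left]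
    intro c hA hB
    obtain ⟨x, hx⟩ := (Finset.mem_filter.1 hA).2
    obtain ⟨y, hy⟩ := (Finset.mem_filter.1 hB).2
    have hadj : (orthGraph (a + b)).Adj (embLS b x) (embRS a y) :=
      (adj_iff _ _).2 (inner_embLR (x : EuclideanSpace ℝ (Fin a)) (y : EuclideanSpace ℝ (Fin b)))
    exact C.valid hadj (hx.trans hy.symm)
  refine ⟨A.card, B.card, ?_, ?_, ?_⟩
  · rw [← Finset.card_union_of_disjoint hdisj]
    exact (Finset.card_le_univ _).trans (by simp)
  · let C' : (orthGraph a).Coloring {c // c ∈ A} :=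
      SimpleGraph.Coloring.mk
        (fun x => ⟨C (embLS b x), Finset.mem_filter.2 ⟨Finset.mem_univ _, x, rfl⟩⟩) (by
        intro x y hxy h
        refine C.valid ?_ (congrArg Subtype.val h)
        rw [adj_iff] at hxy ⊢
        change inner ℝ (embL b (x : EuclideanSpace ℝ (Fin a)))
          (embL b (y : EuclideanSpace ℝ (Fin a))) = 0
        rw [inner_embL, hxy])
    have h := C'.colorable
    rwa [Fintype.card_coe] at h
  · let C' : (orthGraph b).Coloring {c // c ∈ B} :=
      SimpleGraph.Coloring.mk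
        (fun x => ⟨C (embRS a x), Finset.mem_filter.2 ⟨Finset.mem_univ _, x, rfl⟩⟩) (by
        intro x y hxy h
        refine C.valid ?_ (congrArg Subtype.val h)
        rw [adj_iff] at hxy ⊢
        change inner ℝ (embR a (x : EuclideanSpace ℝ (Fin b)))
          (embR a (y : EuclideanSpace ℝ (Fin b))) = 0
        rw [inner_embR, hxy])
    have h := C'.colorable
    rwa [Fintype.card_coe] at h

/-- `L d m` : every proper colouring in dimension `d` has at least `m` colours. -/
def L (d m : ℕ) : Prop := ∀ n, (orthGraph d).Colorable n → m ≤ n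

theorem L.add {a b m₁ m₂ : ℕ} (h₁ : L a m₁) (h₂ : L b m₂) : L (a + b) (m₁ + m₂) := by
  intro n hn
  obtain ⟨k₁, k₂, h, hk₁, hk₂⟩ := colorable_add hn
  have := h₁ _ hk₁
  have := h₂ _ hk₂
  omega

theorem L.zero (d : ℕ) : L d 0 := fun n _ => Nat.zero_le n

theorem L.mono {d m m' : ℕ} (h : L d m) (hm : m' ≤ m) : L d m' := fun n hn => hm.trans (h n hn)

theorem L.one : L 1 1 := by
  intro n hn
  obtain ⟨h1, _⟩ := colorable_pred (d := 0) hn
  exact h1

theorem L.mul {a m : ℕ} (h : L a m) (k : ℕ) : L (a * k) (m * k) := by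
  induction k with
  | zero => exact L.zero _
  | succ k ih =>
    rw [Nat.mul_succ, Nat.mul_succ]
    exact L.add ih h

end Pool.Agent.Helper144.Sph
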